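import Pool.Agent.Helper74.DI.StM

/-! # Project DI, module STC: steps of the first loop -/

set_option autoImplicit false

namespace Pool.Agent.Helper54.DI

open Pool.Agent.Helper74.DI

theorem sth_of {w : List Op} {q q' : Qm} {f : Hd → ℕ} {mv : Hd → Fin 3}
    (h : dm q (fun j => (decide (f j = 0), w[f j - 1]?)) = (q', mv)) :
    sth dm w (q, f) = (q', fun i => if mv i = 0 then f i - 1 else if mv i = 1 then f i
      else min (f i + 1) (w.length + 1)) := by
  simp only [sth]
  rw [h]

/-- positions of the heads -/
def ps (o : Bool → Bool) (j : ℕ) (v : Bool → ℕ) (t μ : ℕ) : Hd → ℕ
  | .J => j
  | .R r c => if c = o r then v r else μ - v r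
  | .T c => if c then t else μ - t

theorem cf_eq (lo : Lo) (e : Bool) (o : Bool → Bool) (j : ℕ) (v : Bool → ℕ) (t μ : ℕ) :
    cf lo e o j v t μ = ((lo, e, o), ps o j v t μ) := by
  refine Prod.ext rfl (funext fun h => ?_)
  cases h <;> rfl

theorem hSTC : StSTC := by
  intro w x s e o j v t μ hv ht hμ
  have hvx := hv x
  have hvnx := hv (!x)
  constructor
  · intro h0
    rw [cf_eq, sth_of (q' := (.l2 x s, e, o)) (mv := fun _ => 1), cf_eq]
    · refine Prod.ext rfl (funext fun h => ?_)
      simp
    · simp [dm, ps, h0]
  · intro h0 hlt
    rw [cf_eq, cf_eq]
    cases s
    · by_cases h1 : v x = 0
      · rw [sth_of (q' := (.l1 x false, e, fl x o)) (mv := mk 1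
          (fun r c => if r = x then 1 else (if c = o (!x) then 0 else 2))
          (fun c => if c then 2 else 0))]
        · refine Prod.ext (by simp [idc, dec, up, h1]) (funext fun h => ?_)
          rcases h with _ | ⟨r, c⟩ | c
          · simp [mk, ps]
          · by_cases hr : r = x
            · subst hr
              by_cases hc : c = o r
              · simp [mk, ps, idc, dec, up, fl, h1, hc]
              · have hc' : c = !(o r) := by cases c <;> cases h : o r <;> simp_all
                simp [mk, ps, idc, dec, up, fl, h1, hc']
            · have hr' : r = !x := by cases r <;> cases x <;> simp_all
              subst hr'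
              by_cases hc : c = o (!x)
              · simp [mk, ps, idc, dec, up, fl, h1, hc]
              · simp [mk, ps, idc, dec, up, fl, h1, hc]
                omega
          · cases c
            · simp [mk, ps]
              omega
            · simp [mk, ps]
              omega
        · simp [dm, ps, h0, h1]
      · rw [sth_of (q' := (.l1 x false, e, o)) (mv := mk 1
          (fun r c => if r = x then (if c = o x then 0 else 2)
            else (if c = o (!x) then 0 else 2))
          (fun c => if c then 2 else 0))]
        · refine Prod.ext (by simp [idc, dec, up, h1]) (funext fun h => ?_)
          rcases h with _ | ⟨r, c⟩ | c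
          · simp [mk, ps]
          · by_cases hr : r = x
            · subst hr
              by_cases hc : c = o r
              · simp [mk, ps, idc, dec, up, h1, hc]
              · simp [mk, ps, idc, dec, up, h1, hc]
                omega
            · have hr' : r = !x := by cases r <;> cases x <;> simp_all
              subst hr'
              by_cases hc : c = o (!x)
              · simp [mk, ps, idc, dec, up, h1, hc]
              · simp [mk, ps, idc, dec, up, h1, hc]
                omega
          · cases c
            · simp [mk, ps]
              omega
            · simp [mk, ps]
              omega
        · simp [dm, ps, h0, h1]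
    · by_cases h1 : v x = μ
      · rw [sth_of (q' := (.l1 x true, e, fl x o)) (mv := mk 1
          (fun r c => if r = x then 1 else (if c = o (!x) then 0 else 2))
          (fun c => if c then 2 else 0))]
        · refine Prod.ext (by simp [idc, inc, up, h1]) (funext fun h => ?_)
          rcases h with _ | ⟨r, c⟩ | c
          · simp [mk, ps]
          · by_cases hr : r = x
            · subst hr
              by_cases hc : c = o r
              · simp [mk, ps, idc, inc, up, fl, h1, hc]
              · have hc' : c = !(o r) := by cases c <;> cases h : o r <;> simp_all
                simp [mk, ps, idc, inc, up, fl, h1, hc']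
            · have hr' : r = !x := by cases r <;> cases x <;> simp_all
              subst hr'
              by_cases hc : c = o (!x)
              · simp [mk, ps, idc, inc, up, fl, h1, hc]
              · simp [mk, ps, idc, inc, up, fl, h1, hc]
                omega
          · cases c
            · simp [mk, ps]
              omega
            · simp [mk, ps]
              omega
        · simp [dm, ps, h0, h1]
      · have h2 : ¬ (μ - v x = 0) := by omega
        rw [sth_of (q' := (.l1 x true, e, o)) (mv := mk 1
          (fun r c => if r = x then (if c = o x then 2 else 0)
            else (if c = o (!x) then 0 else 2))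
          (fun c => if c then 2 else 0))]
        · refine Prod.ext (by simp [idc, inc, up, h1]) (funext fun h => ?_)
          rcases h with _ | ⟨r, c⟩ | c
          · simp [mk, ps]
          · by_cases hr : r = x
            · subst hr
              by_cases hc : c = o r
              · simp [mk, ps, idc, inc, up, h1, hc]
                omega
              · simp [mk, ps, idc, inc, up, h1, hc]
                omega
            · have hr' : r = !x := by cases r <;> cases x <;> simp_all
              subst hr'
              by_cases hc : c = o (!x)
              · simp [mk, ps, idc, inc, up, h1, hc]
              · simp [mk, ps, idc, inc, up, h1, hc]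
                omega
          · cases c
            · simp [mk, ps]
              omega
            · simp [mk, ps]
              omega
        · simp [dm, ps, h0, h2]

end Pool.Agent.Helper54.DI
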